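import Pool.Agent.Lib_helper92.BFA.Final

/-!
# Second part: the stronger upper bound for the number of bent functions, definitions
-/

namespace Pool.Agent.BF

open Finset

/-- The noise operator on the cube `J → Bool`. -/
noncomputable def Tn {J : Type} [Fintype J] [DecidableEq J] (ρ : ℝ) (F : (J → Bool) → ℝ) (ω : J → Bool) : ℝ :=
  Ex (fun ω' : J → Bool => F ω' * ∏ j, (1 + ρ * (bt (ω j) * bt (ω' j))))

/-- The sum of the signs at the coordinate `x`. -/
noncomputable def TT {ι : Type} {K : ℕ} (ω : Om ι K) (x : ι) : ℝ := 2 * (gam ω x : ℝ) - K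

end Pool.Agent.BF
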